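import Pool.Agent.Helper99_TF.Step

/-! Squad TF (MP_589914_co), helper99: `MulStmt` from the library and AL1 only (no cubes). -/

set_option autoImplicit false

namespace Pool.Agent.TF.H99

theorem mul_aux (L : Lib) (hA : Al1Stmt) {G : Type} [AddCommGroup G] [Fintype G] [DecidableEq G] {n : ℕ}
    (F : Fam G n) (l e f : ℝ) (R : ℕ) {Ω : Type} [Fintype Ω] (P : Law Ω) (x : Ω → G) (c : Ω → Fin R → Fin n)
    (hT : Thin F l e f R P x c) (j : Fin R) :
    ∀ (m : ℕ) (τ : Fin R → Option Bool), τ j = none → (Finset.univ.filter (fun i => τ i ≠ none)).card = m →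
      mi P (fun ω => F.a (c ω j) (x ω)) (fun ω => F.b (c ω j) (x ω)) (fun ω => (F.labs τ (c ω) (x ω), c ω))
      ≤ (e + f) + m * (372 * e) := by
  classical
  have hB := hT.base
  have he := hB.e0
  intro m
  induction m with
  | zero =>
    intro τ _ hm
    rw [Finset.card_eq_zero] at hm
    have hτ : τ = fun _ => none := by
      funext i
      by_contra h
      have : i ∈ Finset.univ.filter (fun i => τ i ≠ none) := Finset.mem_filter.mpr ⟨Finset.mem_univ _, h⟩
      rw [hm] at this
      exact absurd this (Finset.notMem_empty _)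
    subst hτ
    unfold mi
    have h1 : P.H (fun ω => (F.b (c ω j) (x ω), (F.labs (fun _ => none) (c ω) (x ω), c ω)))
        ≤ P.H (fun ω => (F.b (c ω j) (x ω), c ω)) := by
      apply mo L
      intro ω ω' _ _ he
      simp only [Prod.mk.injEq] at he ⊢
      refine ⟨he.1, ?_, he.2⟩
      funext i
      simp only [Fam.labs, Option.map_none]
    have h2 := hlab_le L F l e hB P x (fun ω => c ω j) false c (fun ω h0 => hT.supp ω h0 j) (by
      intro ω ω' _ _ he
      simp only
      rw [he])
    simp only [lab_false] at h2
    have h3 : P.H (fun ω => (F.a (c ω j) (x ω), (F.labs (fun _ => none) (c ω) (x ω), c ω)))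
        ≤ P.H (fun ω => (F.a (c ω j) (x ω), c ω)) := by
      apply mo L
      intro ω ω' _ _ he
      simp only [Prod.mk.injEq] at he ⊢
      refine ⟨he.1, ?_, he.2⟩
      funext i
      simp only [Fam.labs, Option.map_none]
    have h4 : P.H (fun ω => (F.b (c ω j) (x ω), (F.a (c ω j) (x ω), c ω)))
        ≤ P.H (fun ω => ((F.a (c ω j) (x ω), F.b (c ω j) (x ω)), (F.labs (fun _ => none) (c ω) (x ω), c ω))) := by
      apply mo L
      intro ω ω' _ _ he
      simp only [Prod.mk.injEq] at he ⊢
      tauto
    have h5 : P.H c ≤ P.H (fun ω => (F.labs (fun _ => none) (c ω) (x ω), c ω)) := by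
      apply mo L
      intro ω ω' _ _ he
      simp only [Prod.mk.injEq] at he
      exact he.2
    have h6 := hT.move j
    unfold Law.C at h6
    simp only at h6
    push_cast
    linarith
  | succ m ih =>
    intro τ hj hm
    have hne : (Finset.univ.filter (fun i => τ i ≠ none)).Nonempty := by
      rw [← Finset.card_pos, hm]
      exact Nat.succ_pos m
    obtain ⟨i, hi⟩ := hne
    have hi' := (Finset.mem_filter.mp hi).2
    obtain ⟨σ, hσ⟩ := Option.ne_none_iff_exists'.mp hi'
    have hij : j ≠ i := by
      intro h
      rw [h] at hj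
      exact hi' hj
    set τ' : Fin R → Option Bool := Function.update τ i none with hτ'
    have hj' : τ' j = none := by
      rw [hτ', Function.update_of_ne hij]
      exact hj
    have hcard : (Finset.univ.filter (fun i => τ' i ≠ none)).card = m := by
      have h1 : Finset.univ.filter (fun i => τ' i ≠ none) = (Finset.univ.filter (fun i => τ i ≠ none)).erase i := by
        ext u
        simp only [Finset.mem_filter, Finset.mem_univ, true_and, Finset.mem_erase, hτ']
        by_cases hu : u = i
        · subst hu
          simp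
        · rw [Function.update_of_ne hu]
          simp [hu]
      rw [h1, Finset.card_erase_of_mem hi, hm]
      rfl
    have ih' := ih τ' hj' hcard
    have step := ci_step L hA F l e e hB P x (fun ω => c ω j) (fun ω => c ω i) he
      (fun ω h0 => ⟨hT.supp ω h0 j, hT.supp ω h0 i⟩) (hT.pair j i hij) σ (fun ω => (F.labs τ' (c ω) (x ω), c ω))
      (by
        intro ω ω' _ _ he
        simp only [Prod.mk.injEq] at he ⊢
        rw [he.2]
        exact ⟨rfl, rfl⟩)
    have cong : mi P (fun ω => F.a (c ω j) (x ω)) (fun ω => F.b (c ω j) (x ω)) (fun ω => (F.labs τ (c ω) (x ω), c ω))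
        = mi P (fun ω => F.a (c ω j) (x ω)) (fun ω => F.b (c ω j) (x ω))
          (fun ω => (F.lab σ (c ω i) (x ω), (F.labs τ' (c ω) (x ω), c ω))) := by
      have key : ∀ ω ω' : Ω, (F.labs τ (c ω) (x ω) = F.labs τ (c ω') (x ω')) ↔
          (F.lab σ (c ω i) (x ω) = F.lab σ (c ω' i) (x ω') ∧ F.labs τ' (c ω) (x ω) = F.labs τ' (c ω') (x ω')) := by
        intro ω ω'
        constructor
        · intro h
          refine ⟨?_, ?_⟩
          · have h1 := congrFun h i
            simp only [Fam.labs, hσ, Option.map_some, Option.some.injEq] at h1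
            exact h1
          · funext u
            have h1 := congrFun h u
            by_cases hu : u = i
            · subst hu
              simp only [Fam.labs, hτ', Function.update_self, Option.map_none]
            · simp only [Fam.labs] at h1
              simp only [Fam.labs, hτ', Function.update_of_ne hu]
              exact h1
        · intro h
          funext u
          by_cases hu : u = i
          · subst hu
            simp only [Fam.labs, hσ, Option.map_some, Option.some.injEq]
            exact h.1
          · have h1 := congrFun h.2 u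
            simp only [Fam.labs, hτ', Function.update_of_ne hu] at h1
            simp only [Fam.labs]
            exact h1
      have e1 : ∀ {Y : Type} (y : Ω → Y), P.H (fun ω => (y ω, (F.labs τ (c ω) (x ω), c ω)))
          = P.H (fun ω => (y ω, (F.lab σ (c ω i) (x ω), (F.labs τ' (c ω) (x ω), c ω)))) := by
        intro Y y
        apply mono_cong L
        · intro ω ω' _ _ he
          simp only [Prod.mk.injEq] at he ⊢
          have := (key ω ω').mp he.2.1
          tauto
        · intro ω ω' _ _ he
          simp only [Prod.mk.injEq] at he ⊢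
          have := (key ω ω').mpr ⟨he.2.1, he.2.2.1⟩
          tauto
      have e2 : P.H (fun ω => (F.labs τ (c ω) (x ω), c ω))
          = P.H (fun ω => (F.lab σ (c ω i) (x ω), (F.labs τ' (c ω) (x ω), c ω))) := by
        apply mono_cong L
        · intro ω ω' _ _ he
          simp only [Prod.mk.injEq] at he ⊢
          have := (key ω ω').mp he.1
          tauto
        · intro ω ω' _ _ he
          simp only [Prod.mk.injEq] at he ⊢
          have := (key ω ω').mpr ⟨he.1, he.2.1⟩
          tauto
      unfold mi
      rw [e1 (fun ω => F.a (c ω j) (x ω)), e1 (fun ω => F.b (c ω j) (x ω)),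
        e1 (fun ω => (F.a (c ω j) (x ω), F.b (c ω j) (x ω))), e2]
    rw [cong]
    push_cast
    linarith

/-- ROW MUL, from the library and AL1 only. -/
theorem mul (L : Lib) (hA : Al1Stmt) : MulStmt := by
  classical
  intro G _ _ _ n F l e f R Ω _ P x c hT τ j hj
  have h := mul_aux L hA F l e f R P x c hT j _ τ hj rfl
  have he := hT.base.e0
  have hf := hT.f0
  have hx : P.H (fun ω => (x ω, (F.labs τ (c ω) (x ω), c ω)))
      = P.H (fun ω => ((F.a (c ω j) (x ω), F.b (c ω j) (x ω)), (F.labs τ (c ω) (x ω), c ω))) := by
    apply mono_cong L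
    · intro ω ω' _ _ he
      simp only [Prod.mk.injEq] at he ⊢
      obtain ⟨e1, e2, e3⟩ := he
      refine ⟨⟨?_, ?_⟩, e2, e3⟩
      · rw [e1, e3]
      · rw [e1, e3]
    · intro ω ω' h0 h0' he
      simp only [Prod.mk.injEq] at he ⊢
      obtain ⟨⟨ea, eb⟩, e2, e3⟩ := he
      refine ⟨?_, e2, e3⟩
      have hx1 := hT.supp ω h0 j
      have hx2 := hT.supp ω' h0' j
      rw [e3] at ea eb hx1
      exact lab_det F true (c ω' j) _ _ hx1 hx2 (by rw [lab_true, lab_true]; exact ea)
        (by rw [Bool.not_true, lab_false, lab_false]; exact eb)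
  have hm : ((Finset.univ.filter (fun i => τ i ≠ none)).card : ℝ) ≤ R := by
    have h1 := Finset.card_filter_le (Finset.univ : Finset (Fin R)) (fun i => τ i ≠ none)
    rw [Finset.card_univ, Fintype.card_fin] at h1
    exact_mod_cast h1
  have hR : (1 : ℝ) ≤ R := by
    have : 0 < R := Fin.pos j
    exact_mod_cast this
  unfold Law.C
  rw [hx]
  unfold mi at h
  have h2 : ((Finset.univ.filter (fun i => τ i ≠ none)).card : ℝ) * (372 * e) ≤ R * (372 * e) :=
    mul_le_mul_of_nonneg_right hm (by linarith)
  have h3 : e + f ≤ R * (e + f) := by nlinarith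
  have h4 : (R : ℝ) * (e + f) + R * (372 * e) ≤ 4000 * R * (f + e) := by
    have h5 : 0 ≤ (R : ℝ) * e := mul_nonneg (by linarith) he
    have h6 : 0 ≤ (R : ℝ) * f := mul_nonneg (by linarith) hf
    nlinarith
  linarith

end Pool.Agent.TF.H99
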