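import Pool.Agent.Helper99_TF.Shannon

/-! Squad TF (MP_589914_co), helper99: profile of a near maximal pair from the support bound. -/

set_option autoImplicit false

namespace Pool.Agent.TF.H99

section basic

variable {Ω : Type} [Fintype Ω]

theorem mono_cong (L : Lib) (P : Law Ω) {A B : Type} {a : Ω → A} {b : Ω → B} (h : P.Det a b) (h' : P.Det b a) :
    P.H a = P.H b := le_antisymm (mo L P h') (mo L P h)

theorem E_const (P : Law Ω) (c : ℝ) : P.E (fun _ => c) = c := by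
  unfold Law.E
  rw [← Finset.sum_mul, P.one, one_mul]

theorem E_le (P : Law Ω) (f g : Ω → ℝ) (h : ∀ ω, P.p ω ≠ 0 → f ω ≤ g ω) : P.E f ≤ P.E g := by
  unfold Law.E
  refine Finset.sum_le_sum fun ω _ => ?_
  by_cases h0 : P.p ω = 0
  · rw [h0, zero_mul, zero_mul]
  · exact mul_le_mul_of_nonneg_left (h ω h0) (P.nn ω)

theorem exists_supp (P : Law Ω) : ∃ ω, P.p ω ≠ 0 := by
  by_contra h
  push Not at h
  have h1 := P.one
  rw [Finset.sum_eq_zero (fun ω _ => h ω)] at h1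
  exact zero_ne_one h1

/-- `H(X) ≤ log |T|` -/
theorem card_le (L : Lib) (P : Law Ω) {A : Type} (a : Ω → A) (T : Finset A) (h : ∀ ω, P.p ω ≠ 0 → a ω ∈ T) :
    P.H a ≤ Real.log T.card := by
  have h1 := L.gib Ω A P a T (fun _ => 1) (fun _ _ => zero_le_one) (fun ω h0 => ⟨h ω h0, one_pos⟩)
  simp only [Real.log_one, Finset.sum_const, nsmul_eq_mul, mul_one] at h1
  rw [E_const] at h1
  linarith

/-- `H(X|Y) ≤ M` if given `Y` there are at most `exp M` values -/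
theorem card_cond (L : Lib) (P : Law Ω) {A B : Type} (a : Ω → A) (b : Ω → B) (T : B → Finset A) (M : ℝ)
    (h : ∀ ω, P.p ω ≠ 0 → a ω ∈ T (b ω)) (hM : ∀ ω, P.p ω ≠ 0 → Real.log ((T (b ω)).card) ≤ M) :
    P.H (fun ω => (a ω, b ω)) ≤ P.H b + M := by
  have h1 := L.gic Ω A B P a b T (fun _ _ => 1) (fun _ _ _ => zero_le_one) (fun ω h0 => ⟨h ω h0, one_pos⟩)
  simp only [Real.log_one, Finset.sum_const, nsmul_eq_mul, mul_one] at h1
  rw [E_const] at h1
  have h2 : P.E (fun ω => Real.log ((T (b ω)).card)) ≤ M := by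
    have := E_le P (fun ω => Real.log ((T (b ω)).card)) (fun _ => M) hM
    rwa [E_const] at this
  unfold Law.C at h1
  linarith

theorem sub_add (L : Lib) (P : Law Ω) {A B : Type} (a : Ω → A) (b : Ω → B) :
    P.H (fun ω => (a ω, b ω)) ≤ P.H a + P.H b := by
  have h := sm L P (a := a) (b := b) (u := fun ω => (a ω, b ω)) (v := fun _ => ())
    (fun ω ω' _ _ he => he) (fun ω ω' _ _ _ => rfl) (fun ω ω' _ _ _ => rfl)
  have h2 := L.mon.2 Ω Unit P (fun _ => ())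
  linarith

end basic

/-- conditionally independent coupling, convenient form -/
theorem gl (L : Lib) {Ω1 Ω2 S : Type} [Fintype Ω1] [Fintype Ω2] (P1 : Law Ω1) (P2 : Law Ω2)
    (X1 : Ω1 → S) (X2 : Ω2 → S) (hs : SameLaw P1 X1 P2 X2) :
    ∃ P : Law (Ω1 × Ω2),
      (∀ (A : Type) (f : Ω1 → A), P.H (fun ω => f ω.1) = P1.H f) ∧
      (∀ (A : Type) (f : Ω2 → A), P.H (fun ω => f ω.2) = P2.H f) ∧
      (∀ ω, P.p ω ≠ 0 → P1.p ω.1 ≠ 0 ∧ P2.p ω.2 ≠ 0 ∧ X1 ω.1 = X2 ω.2) ∧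
      (∀ (A B : Type) (f : Ω1 → A) (g : Ω2 → B), P1.Det f X1 →
        P.H (fun ω => (g ω.2, f ω.1)) = P1.H f + P2.C g X2) ∧
      (∀ (A : Type) (f : Ω1 → A) (g : Ω1 → A) , SameLaw P1 f P1 g → SameLaw P (fun ω => f ω.1) P1 g) ∧
      SameLaw P (fun ω => ω.1) P1 (fun ω => ω) ∧ SameLaw P (fun ω => ω.2) P2 (fun ω => ω) := by
  obtain ⟨P, h1, h2, h3, h4, h5⟩ := L.gl2 Ω1 Ω2 S P1 P2 X1 X2 hs
  have hf1 : ∀ (A : Type) (f : Ω1 → A), P.H (fun ω => f ω.1) = P1.H f := by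
    intro A f
    exact L.sam.2.1 _ _ _ P P1 _ _ (L.sam.1 _ _ _ _ P P1 _ _ f h1)
  have hf2 : ∀ (A : Type) (f : Ω2 → A), P.H (fun ω => f ω.2) = P2.H f := by
    intro A f
    exact L.sam.2.1 _ _ _ P P2 _ _ (L.sam.1 _ _ _ _ P P2 _ _ f h2)
  refine ⟨P, hf1, hf2, h3, ?_, ?_, h1, h2⟩
  · intro A B f g hd
    have h6 := h5 A B f g
    unfold Law.C at h6 ⊢
    have h7 : P.H (fun ω => ((f ω.1, g ω.2), X1 ω.1)) = P.H (fun ω => (g ω.2, f ω.1)) := by
      apply mono_cong L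
      · intro ω ω' _ _ he
        simp only [Prod.mk.injEq] at he ⊢
        tauto
      · intro ω ω' h0 h0' he
        simp only [Prod.mk.injEq] at he ⊢
        exact ⟨⟨he.2, he.1⟩, hd ω.1 ω'.1 (h3 ω h0).1 (h3 ω' h0').1 he.2⟩
    have h8 : P1.H (fun ω => (f ω, X1 ω)) = P1.H f := by
      apply mono_cong L
      · intro ω ω' _ _ he
        simp only [Prod.mk.injEq] at he
        exact he.1
      · intro ω ω' h0 h0' he
        simp only [Prod.mk.injEq]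
        exact ⟨he, hd ω ω' h0 h0' he⟩
    have h9 := hf1 _ X1
    rw [h7, h8, h9] at h6
    linarith
  · intro A f g hfg s
    have := L.sam.1 _ _ _ _ P P1 _ _ f h1 s
    rw [this]
    exact hfg s

section pair

variable {G : Type} [AddCommGroup G] [Fintype G] [DecidableEq G] {n : ℕ}

theorem hK_le (L : Lib) (F : Fam G n) (l e : ℝ) (hB : Base F l e) {Ω : Type} [Fintype Ω] (P : Law Ω)
    (k : Ω → Fin n) : P.H k ≤ l / 2 + e := by
  have h := card_le L P k Finset.univ (fun ω _ => Finset.mem_univ _)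
  rw [Finset.card_univ, Fintype.card_fin] at h
  exact h.trans hB.hn

theorem hx_le (L : Lib) (F : Fam G n) (l e : ℝ) (hB : Base F l e) {Ω : Type} [Fintype Ω] (P : Law Ω)
    (x : Ω → G) {K : Type} (κ : Ω → K) : P.H (fun ω => (x ω, κ ω)) ≤ P.H κ + l := by
  apply card_cond L P x κ (fun _ => Finset.univ) l (fun ω _ => Finset.mem_univ _)
  intro ω _
  rw [Finset.card_univ]
  exact hB.hN.le

theorem hlab_le (L : Lib) (F : Fam G n) (l e : ℝ) (hB : Base F l e) {Ω : Type} [Fintype Ω] (P : Law Ω)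
    (x : Ω → G) (k : Ω → Fin n) (σ : Bool) {K : Type} (κ : Ω → K)
    (hs : ∀ ω, P.p ω ≠ 0 → x ω ∈ F.D (k ω)) (hk : P.Det κ k) :
    P.H (fun ω => (F.lab σ (k ω) (x ω), κ ω)) ≤ P.H κ + (l / 2 + e) := by
  have h1 := card_cond L P (fun ω => F.lab σ (k ω) (x ω)) k (fun i => (F.D i).image (F.lab σ i)) (l / 2 + e)
    (fun ω h0 => Finset.mem_image_of_mem _ (hs ω h0)) (fun ω _ => hB.hlab σ (k ω))
  have h2 : P.H (fun ω => (F.lab σ (k ω) (x ω), κ ω)) + P.H k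
      ≤ P.H (fun ω => (F.lab σ (k ω) (x ω), k ω)) + P.H κ := by
    apply sm L
    · intro ω ω' _ _ he
      simp only [Prod.mk.injEq] at he ⊢
      tauto
    · intro ω ω' _ _ he
      simp only [Prod.mk.injEq] at he
      exact he.2
    · exact hk
  linarith

theorem hw_le (L : Lib) (F : Fam G n) (l e : ℝ) (hB : Base F l e) {Ω : Type} [Fintype Ω] (P : Law Ω)
    (x : Ω → G) (k j : Ω → Fin n) (t : Bool)
    (hs : ∀ ω, P.p ω ≠ 0 → x ω ∈ F.D (k ω) ∧ x ω ∈ F.D (j ω)) :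
    P.H (fun ω => (F.w t (k ω) (j ω) (x ω), (k ω, j ω))) ≤ 3 * l / 2 + e := by
  classical
  set T : Finset (G × (Fin n × Fin n)) := (Finset.univ : Finset (Fin n × Fin n)).biUnion
    (fun u => ((F.D u.1 ∩ F.D u.2).image (F.w t u.1 u.2)).image (fun v => (v, u))) with hT
  have hmem : ∀ ω, P.p ω ≠ 0 → (F.w t (k ω) (j ω) (x ω), (k ω, j ω)) ∈ T := by
    intro ω h0
    rw [hT, Finset.mem_biUnion]
    refine ⟨(k ω, j ω), Finset.mem_univ _, ?_⟩
    rw [Finset.mem_image]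
    refine ⟨F.w t (k ω) (j ω) (x ω), ?_, rfl⟩
    exact Finset.mem_image_of_mem _ (Finset.mem_inter.mpr (hs ω h0))
  have h1 := card_le L P _ T hmem
  obtain ⟨ω0, hω0⟩ := exists_supp P
  have hTpos : 0 < T.card := Finset.card_pos.mpr ⟨_, hmem ω0 hω0⟩
  have hn : 0 < n := (Fin.pos (k ω0))
  have h2 : (T.card : ℝ) ≤ n * Fintype.card G := by
    refine le_trans ?_ (hB.hW t)
    rw [← Finset.sum_product', Finset.univ_product_univ]
    have h3 : T.card ≤ ∑ u : Fin n × Fin n, ((F.D u.1 ∩ F.D u.2).image (F.w t u.1 u.2)).card := by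
      refine le_trans Finset.card_biUnion_le ?_
      exact Finset.sum_le_sum fun u _ => Finset.card_image_le
    exact_mod_cast h3
  have hn' : (0 : ℝ) < n := by exact_mod_cast hn
  have hG : (0 : ℝ) < Fintype.card G := by exact_mod_cast Fintype.card_pos
  have h4 : Real.log T.card ≤ Real.log (n * Fintype.card G) :=
    Real.log_le_log (by exact_mod_cast hTpos) h2
  rw [Real.log_mul hn'.ne' hG.ne', hB.hN] at h4
  have h5 := hB.hn
  linarith

theorem lab_true (F : Fam G n) (k : Fin n) (x : G) : F.lab true k x = F.a k x := by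
  unfold Fam.lab; rfl

theorem lab_false (F : Fam G n) (k : Fin n) (x : G) : F.lab false k x = F.b k x := by
  unfold Fam.lab; rfl

/-- labels of the same class determine the point -/
theorem lab_det (F : Fam G n) (σ : Bool) (k : Fin n) (x y : G) (hx : x ∈ F.D k) (hy : y ∈ F.D k)
    (h1 : F.lab σ k x = F.lab σ k y) (h2 : F.lab (!σ) k x = F.lab (!σ) k y) : x = y := by
  have hx' := F.sub k x hx
  have hy' := F.sub k y hy
  cases σ
  · simp only [Bool.not_false, lab_true, lab_false] at h1 h2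
    rw [← hx', ← hy', h1, h2]
  · simp only [Bool.not_true, lab_true, lab_false] at h1 h2
    rw [← hx', ← hy', h1, h2]

/-- `w t` in terms of the labels `σ` of `k` and `τ` of `j`, `t = xor σ τ` -/
theorem w_det (hA : Al1Stmt) (F : Fam G n) (σ τ : Bool) (k j : Fin n) (x y : G)
    (hx : x ∈ F.D k ∧ x ∈ F.D j) (hy : y ∈ F.D k ∧ y ∈ F.D j)
    (h1 : F.lab σ k x = F.lab σ k y) (h2 : F.lab τ j x = F.lab τ j y) :
    F.w (xor σ τ) k j x = F.w (xor σ τ) k j y := by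
  obtain ⟨hA1, _, _, _⟩ := hA G n F k j
  obtain ⟨ux, gx⟩ := hA1 x (Finset.mem_inter.mpr hx)
  obtain ⟨uy, gy⟩ := hA1 y (Finset.mem_inter.mpr hy)
  cases σ <;> cases τ <;> simp only [lab_true, lab_false] at h1 h2 <;> simp only [Fam.w, Bool.xor_false, Bool.xor_true,
    Bool.not_false, Bool.not_true, if_true, Bool.false_eq_true, if_false]
  · rw [gx, gy, h1, h2]
  · rw [ux, uy, h1, h2]
  · rw [h1, h2]
  · rw [h1, h2]

/-- `w t` and the label `σ` of `k` determine the label `τ` of `j`, `t = xor σ τ` -/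
theorem w_inv (hA : Al1Stmt) (F : Fam G n) (σ τ : Bool) (k j : Fin n) (x y : G)
    (hx : x ∈ F.D k ∧ x ∈ F.D j) (hy : y ∈ F.D k ∧ y ∈ F.D j)
    (h1 : F.lab σ k x = F.lab σ k y) (h2 : F.w (xor σ τ) k j x = F.w (xor σ τ) k j y) :
    F.lab τ j x = F.lab τ j y := by
  obtain ⟨hA1, _, _, _⟩ := hA G n F k j
  obtain ⟨ux, gx⟩ := hA1 x (Finset.mem_inter.mpr hx)
  obtain ⟨uy, gy⟩ := hA1 y (Finset.mem_inter.mpr hy)
  cases σ <;> cases τ <;> simp only [lab_true, lab_false] at h1 ⊢ <;> simp only [Fam.w, Bool.xor_false, Bool.xor_true,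
    Bool.not_false, Bool.not_true, if_true, Bool.false_eq_true, if_false] at h2
  · rw [gx, gy, h1] at h2
    exact sub_right_injective h2
  · rw [ux, uy, h1] at h2
    exact add_right_cancel h2
  · rw [h1] at h2
    exact add_left_cancel h2
  · rw [h1] at h2
    exact sub_right_injective h2

/-- The support bound. -/
theorem supp_bound (L : Lib) (hA : Al1Stmt) (F : Fam G n) (l e : ℝ) (hB : Base F l e) {Ω : Type} [Fintype Ω]
    (P : Law Ω) (x : Ω → G) (k j : Ω → Fin n) (t : Bool)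
    (hs : ∀ ω, P.p ω ≠ 0 → x ω ∈ F.D (k ω) ∧ x ω ∈ F.D (j ω)) :
    P.H (fun ω => ((F.a (k ω) (x ω), F.lab (!t) (j ω) (x ω)), (k ω, j ω))) +
      P.H (fun ω => ((F.b (k ω) (x ω), F.lab t (j ω) (x ω)), (k ω, j ω)))
      ≤ P.H (fun ω => (F.w t (k ω) (j ω) (x ω), (k ω, j ω))) + P.H (fun ω => (k ω, j ω)) + l := by
  classical
  obtain ⟨Q, q1, q2, q3, q4, _, _, _⟩ := gl L P P (fun ω => (F.w t (k ω) (j ω) (x ω), (k ω, j ω)))
    (fun ω => (F.w t (k ω) (j ω) (x ω), (k ω, j ω))) (fun s => rfl)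
  -- the two halves
  have hdet1 : P.Det (fun ω => ((F.a (k ω) (x ω), F.lab (!t) (j ω) (x ω)), (k ω, j ω)))
      (fun ω => (F.w t (k ω) (j ω) (x ω), (k ω, j ω))) := by
    intro ω ω' h0 h0' he
    simp only [Prod.mk.injEq] at he ⊢
    refine ⟨?_, he.2⟩
    have hx := hs ω h0
    have hx' := hs ω' h0'
    obtain ⟨⟨ea, el⟩, ek, ej⟩ := he
    rw [ek] at ea hx ⊢
    rw [ej] at el hx ⊢
    have h := w_det hA F true (!t) (k ω') (j ω') (x ω) (x ω') hx hx' (by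
      rw [lab_true, lab_true]; exact ea) el
    simpa using h
  have e1 := q4 _ _ (fun ω => ((F.a (k ω) (x ω), F.lab (!t) (j ω) (x ω)), (k ω, j ω)))
    (fun ω => ((F.b (k ω) (x ω), F.lab t (j ω) (x ω)), (k ω, j ω))) hdet1
  have hdet2 : P.Det (fun ω => ((F.b (k ω) (x ω), F.lab t (j ω) (x ω)), (k ω, j ω)))
      (fun ω => (F.w t (k ω) (j ω) (x ω), (k ω, j ω))) := by
    intro ω ω' h0 h0' he
    simp only [Prod.mk.injEq] at he ⊢
    refine ⟨?_, he.2⟩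
    have hx := hs ω h0
    have hx' := hs ω' h0'
    obtain ⟨⟨ea, el⟩, ek, ej⟩ := he
    rw [ek] at ea hx ⊢
    rw [ej] at el hx ⊢
    have h := w_det hA F false t (k ω') (j ω') (x ω) (x ω') hx hx' (by
      rw [lab_false, lab_false]; exact ea) el
    simpa using h
  have e2 : P.C (fun ω => ((F.b (k ω) (x ω), F.lab t (j ω) (x ω)), (k ω, j ω)))
      (fun ω => (F.w t (k ω) (j ω) (x ω), (k ω, j ω)))
      = P.H (fun ω => ((F.b (k ω) (x ω), F.lab t (j ω) (x ω)), (k ω, j ω)))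
        - P.H (fun ω => (F.w t (k ω) (j ω) (x ω), (k ω, j ω))) := by
    unfold Law.C
    congr 1
    apply mono_cong L
    · intro ω ω' _ _ he
      simp only [Prod.mk.injEq] at he ⊢
      tauto
    · intro ω ω' h0 h0' he
      have h2 := hdet2 ω ω' h0 h0' he
      exact Prod.ext he h2
  rw [e2] at e1
  -- the new point
  have h3 := hx_le L F l e hB Q (fun ω : Ω × Ω => F.a (k ω.1) (x ω.1) - F.b (k ω.1) (x ω.2))
    (fun ω : Ω × Ω => (k ω.1, j ω.1))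
  have h4 : Q.H (fun ω : Ω × Ω => (k ω.1, j ω.1)) = P.H (fun ω => (k ω, j ω)) := q1 _ (fun ω => (k ω, j ω))
  have h5 : Q.H (fun ω : Ω × Ω => (((F.b (k ω.2) (x ω.2), F.lab t (j ω.2) (x ω.2)), (k ω.2, j ω.2)),
      ((F.a (k ω.1) (x ω.1), F.lab (!t) (j ω.1) (x ω.1)), (k ω.1, j ω.1))))
      ≤ Q.H (fun ω : Ω × Ω => (F.a (k ω.1) (x ω.1) - F.b (k ω.1) (x ω.2), (k ω.1, j ω.1))) := by
    apply mo L
    -- on the support the new point has the mixed labels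
    have key : ∀ ω : Ω × Ω, Q.p ω ≠ 0 → k ω.2 = k ω.1 ∧ j ω.2 = j ω.1 ∧
        F.a (k ω.1) (F.a (k ω.1) (x ω.1) - F.b (k ω.1) (x ω.2)) = F.a (k ω.1) (x ω.1) ∧
        F.b (k ω.1) (F.a (k ω.1) (x ω.1) - F.b (k ω.1) (x ω.2)) = F.b (k ω.1) (x ω.2) ∧
        F.lab (!t) (j ω.1) (F.a (k ω.1) (x ω.1) - F.b (k ω.1) (x ω.2)) = F.lab (!t) (j ω.1) (x ω.1) ∧
        F.lab t (j ω.1) (F.a (k ω.1) (x ω.1) - F.b (k ω.1) (x ω.2)) = F.lab t (j ω.1) (x ω.2) := by
      intro ω h0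
      obtain ⟨p1, p2, p3⟩ := q3 ω h0
      simp only [Prod.mk.injEq] at p3
      obtain ⟨pw, pk, pj⟩ := p3
      have hx1 := hs ω.1 p1
      have hx2 := hs ω.2 p2
      rw [← pk, ← pj] at hx2 pw
      obtain ⟨_, hA2, hA3, _⟩ := hA G n F (k ω.1) (j ω.1)
      refine ⟨pk.symm, pj.symm, ?_⟩
      cases t
      · obtain ⟨_, m2, m3, m4, m5⟩ := hA3 (x ω.1) (Finset.mem_inter.mpr hx1) (x ω.2) (Finset.mem_inter.mpr hx2) pw
        simp only [Bool.not_false, lab_true, lab_false]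
        exact ⟨m2, m3, m4, m5⟩
      · obtain ⟨_, m2, m3, m4, m5⟩ := hA2 (x ω.1) (Finset.mem_inter.mpr hx1) (x ω.2) (Finset.mem_inter.mpr hx2) pw
        simp only [Bool.not_true, lab_true, lab_false]
        exact ⟨m2, m3, m5, m4⟩
    intro ω ω' h0 h0' he
    obtain ⟨a1, a2, a3, a4, a5, a6⟩ := key ω h0
    obtain ⟨b1, b2, b3, b4, b5, b6⟩ := key ω' h0'
    simp only [Prod.mk.injEq] at he ⊢
    obtain ⟨hz, hk, hj⟩ := he
    refine ⟨⟨⟨?_, ?_⟩, ?_, ?_⟩, ⟨?_, ?_⟩, hk, hj⟩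
    · rw [a1, b1, ← a4, ← b4, hz, hk]
    · rw [a2, b2, ← a6, ← b6, hz, hj]
    · rw [a1, b1, hk]
    · rw [a2, b2, hj]
    · rw [← a3, ← b3, hz, hk]
    · rw [← a5, ← b5, hz, hj]
  linarith

/-- The numerical profile of a near maximal pair. -/
structure NP (F : Fam G n) (l d : ℝ) {Ω : Type} [Fintype Ω] (P : Law Ω) (x : Ω → G) (k j : Ω → Fin n) : Prop where
  hx : l - d ≤ P.H (fun ω => (x ω, (k ω, j ω))) - P.H (fun ω => (k ω, j ω))
  hx' : P.H (fun ω => (x ω, (k ω, j ω))) - P.H (fun ω => (k ω, j ω)) ≤ l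
  lk : ∀ σ, l / 2 - 3 / 2 * d ≤ P.H (fun ω => (F.lab σ (k ω) (x ω), (k ω, j ω))) - P.H (fun ω => (k ω, j ω))
  lk' : ∀ σ, P.H (fun ω => (F.lab σ (k ω) (x ω), (k ω, j ω))) - P.H (fun ω => (k ω, j ω)) ≤ l / 2 + d / 2
  lj : ∀ σ, l / 2 - 3 / 2 * d ≤ P.H (fun ω => (F.lab σ (j ω) (x ω), (k ω, j ω))) - P.H (fun ω => (k ω, j ω))
  lj' : ∀ σ, P.H (fun ω => (F.lab σ (j ω) (x ω), (k ω, j ω))) - P.H (fun ω => (k ω, j ω)) ≤ l / 2 + d / 2
  pr : ∀ σ τ, 3 * l / 4 - 3 * d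
    ≤ P.H (fun ω => ((F.lab σ (k ω) (x ω), F.lab τ (j ω) (x ω)), (k ω, j ω))) - P.H (fun ω => (k ω, j ω))
  pr' : ∀ σ τ, P.H (fun ω => ((F.lab σ (k ω) (x ω), F.lab τ (j ω) (x ω)), (k ω, j ω))) - P.H (fun ω => (k ω, j ω))
    ≤ 3 * l / 4 + 4 * d
  sb : ∀ σ τ, P.H (fun ω => ((F.lab σ (k ω) (x ω), F.lab τ (j ω) (x ω)), (k ω, j ω))) +
      P.H (fun ω => ((F.lab (!σ) (k ω) (x ω), F.lab (!τ) (j ω) (x ω)), (k ω, j ω)))
      ≤ P.H (fun ω => (F.w (xor σ τ) (k ω) (j ω) (x ω), (k ω, j ω))) + P.H (fun ω => (k ω, j ω)) + l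

theorem npair (L : Lib) (hA : Al1Stmt) (F : Fam G n) (l e c : ℝ) (hB : Base F l e) {Ω : Type} [Fintype Ω]
    (P : Law Ω) (x : Ω → G) (k j : Ω → Fin n) (hc0 : 0 ≤ c)
    (hs : ∀ ω, P.p ω ≠ 0 → x ω ∈ F.D (k ω) ∧ x ω ∈ F.D (j ω))
    (hc : 2 * l - c ≤ P.H (fun ω => (x ω, (k ω, j ω)))) : NP F l (c + 2 * e) P x k j := by
  have he := hB.e0
  have hk := hK_le L F l e hB P k
  have hj := hK_le L F l e hB P j
  have hkj := sub_add L P k j
  have hx := hx_le L F l e hB P x (fun ω => (k ω, j ω))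
  have hs1 : ∀ ω, P.p ω ≠ 0 → x ω ∈ F.D (k ω) := fun ω h0 => (hs ω h0).1
  have hs2 : ∀ ω, P.p ω ≠ 0 → x ω ∈ F.D (j ω) := fun ω h0 => (hs ω h0).2
  have hdk : P.Det (fun ω => (k ω, j ω)) k := by
    intro ω ω' _ _ he
    simp only [Prod.mk.injEq] at he
    exact he.1
  have hdj : P.Det (fun ω => (k ω, j ω)) j := by
    intro ω ω' _ _ he
    simp only [Prod.mk.injEq] at he
    exact he.2
  have hlk := fun σ => hlab_le L F l e hB P x k σ (fun ω => (k ω, j ω)) hs1 hdk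
  have hlj := fun σ => hlab_le L F l e hB P x j σ (fun ω => (k ω, j ω)) hs2 hdj
  have hw := fun t => hw_le L F l e hB P x k j t hs
  have hK1 : l - c ≤ P.H (fun ω => (k ω, j ω)) := by linarith
  have hX : l - (c + 2 * e) ≤ P.H (fun ω => (x ω, (k ω, j ω))) - P.H (fun ω => (k ω, j ω)) := by linarith
  have hX' : P.H (fun ω => (x ω, (k ω, j ω))) - P.H (fun ω => (k ω, j ω)) ≤ l := by linarith
  -- lower bounds for single labels
  have dk : ∀ σ, P.H (fun ω => (x ω, (k ω, j ω))) + P.H (fun ω => (k ω, j ω))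
      ≤ P.H (fun ω => (F.lab σ (k ω) (x ω), (k ω, j ω))) + P.H (fun ω => (F.lab (!σ) (k ω) (x ω), (k ω, j ω))) := by
    intro σ
    apply sm L
    · intro ω ω' h0 h0' he
      simp only [Prod.mk.injEq] at he ⊢
      obtain ⟨⟨e1, e2, e3⟩, e4, _, _⟩ := he
      refine ⟨?_, e2, e3⟩
      have hx1 := hs1 ω h0
      have hx2 := hs1 ω' h0'
      rw [e2] at e1 e4 hx1
      exact lab_det F σ (k ω') _ _ hx1 hx2 e1 e4
    · intro ω ω' _ _ he
      simp only [Prod.mk.injEq] at he ⊢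
      exact he.2
    · intro ω ω' _ _ he
      simp only [Prod.mk.injEq] at he ⊢
      exact he.2
  have dj : ∀ σ, P.H (fun ω => (x ω, (k ω, j ω))) + P.H (fun ω => (k ω, j ω))
      ≤ P.H (fun ω => (F.lab σ (j ω) (x ω), (k ω, j ω))) + P.H (fun ω => (F.lab (!σ) (j ω) (x ω), (k ω, j ω))) := by
    intro σ
    apply sm L
    · intro ω ω' h0 h0' he
      simp only [Prod.mk.injEq] at he ⊢
      obtain ⟨⟨e1, e2, e3⟩, e4, _, _⟩ := he
      refine ⟨?_, e2, e3⟩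
      have hx1 := hs2 ω h0
      have hx2 := hs2 ω' h0'
      rw [e3] at e1 e4 hx1
      exact lab_det F σ (j ω') _ _ hx1 hx2 e1 e4
    · intro ω ω' _ _ he
      simp only [Prod.mk.injEq] at he ⊢
      exact he.2
    · intro ω ω' _ _ he
      simp only [Prod.mk.injEq] at he ⊢
      exact he.2
  -- the support bound for all pairs
  have sb : ∀ σ τ, P.H (fun ω => ((F.lab σ (k ω) (x ω), F.lab τ (j ω) (x ω)), (k ω, j ω))) +
      P.H (fun ω => ((F.lab (!σ) (k ω) (x ω), F.lab (!τ) (j ω) (x ω)), (k ω, j ω)))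
      ≤ P.H (fun ω => (F.w (xor σ τ) (k ω) (j ω) (x ω), (k ω, j ω))) + P.H (fun ω => (k ω, j ω)) + l := by
    intro σ τ
    have h1 := supp_bound L hA F l e hB P x k j true hs
    have h2 := supp_bound L hA F l e hB P x k j false hs
    cases σ <;> cases τ <;> simp only [lab_true, lab_false, Bool.not_false, Bool.not_true, Bool.xor_false,
      Bool.xor_true] at h1 h2 ⊢ <;> linarith
  -- submodularity of pairs
  have s1 : ∀ σ τ, P.H (fun ω => (x ω, (k ω, j ω))) + P.H (fun ω => (F.lab τ (j ω) (x ω), (k ω, j ω)))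
      ≤ P.H (fun ω => ((F.lab σ (k ω) (x ω), F.lab τ (j ω) (x ω)), (k ω, j ω))) +
        P.H (fun ω => ((F.lab (!σ) (k ω) (x ω), F.lab τ (j ω) (x ω)), (k ω, j ω))) := by
    intro σ τ
    apply sm L
    · intro ω ω' h0 h0' he
      simp only [Prod.mk.injEq] at he ⊢
      obtain ⟨⟨⟨e1, _⟩, e2, e3⟩, ⟨e4, _⟩, _, _⟩ := he
      refine ⟨?_, e2, e3⟩
      have hx1 := hs1 ω h0
      have hx2 := hs1 ω' h0'
      rw [e2] at e1 e4 hx1
      exact lab_det F σ (k ω') _ _ hx1 hx2 e1 e4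
    · intro ω ω' _ _ he
      simp only [Prod.mk.injEq] at he ⊢
      exact ⟨he.1.2, he.2⟩
    · intro ω ω' _ _ he
      simp only [Prod.mk.injEq] at he ⊢
      exact ⟨he.1.2, he.2⟩
  have s2 : ∀ σ τ, P.H (fun ω => (x ω, (k ω, j ω))) + P.H (fun ω => (F.lab σ (k ω) (x ω), (k ω, j ω)))
      ≤ P.H (fun ω => ((F.lab σ (k ω) (x ω), F.lab τ (j ω) (x ω)), (k ω, j ω))) +
        P.H (fun ω => ((F.lab σ (k ω) (x ω), F.lab (!τ) (j ω) (x ω)), (k ω, j ω))) := by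
    intro σ τ
    apply sm L
    · intro ω ω' h0 h0' he
      simp only [Prod.mk.injEq] at he ⊢
      obtain ⟨⟨⟨_, e1⟩, e2, e3⟩, ⟨_, e4⟩, _, _⟩ := he
      refine ⟨?_, e2, e3⟩
      have hx1 := hs2 ω h0
      have hx2 := hs2 ω' h0'
      rw [e3] at e1 e4 hx1
      exact lab_det F τ (j ω') _ _ hx1 hx2 e1 e4
    · intro ω ω' _ _ he
      simp only [Prod.mk.injEq] at he ⊢
      exact ⟨he.1.1, he.2⟩
    · intro ω ω' _ _ he
      simp only [Prod.mk.injEq] at he ⊢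
      exact ⟨he.1.1, he.2⟩
  have lk : ∀ σ, l / 2 - 3 / 2 * (c + 2 * e)
      ≤ P.H (fun ω => (F.lab σ (k ω) (x ω), (k ω, j ω))) - P.H (fun ω => (k ω, j ω)) := by
    intro σ
    have h1 := dk σ
    have h2 := hlk (!σ)
    linarith
  have lj : ∀ σ, l / 2 - 3 / 2 * (c + 2 * e)
      ≤ P.H (fun ω => (F.lab σ (j ω) (x ω), (k ω, j ω))) - P.H (fun ω => (k ω, j ω)) := by
    intro σ
    have h1 := dj σ
    have h2 := hlj (!σ)
    linarith
  have pr : ∀ σ τ, 3 * l / 4 - 3 * (c + 2 * e)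
      ≤ P.H (fun ω => ((F.lab σ (k ω) (x ω), F.lab τ (j ω) (x ω)), (k ω, j ω))) - P.H (fun ω => (k ω, j ω)) := by
    intro σ τ
    have h1 := s1 σ τ
    have h2 := s2 σ τ
    have h3 := sb (!σ) τ
    rw [Bool.not_not] at h3
    have h4 := hw (xor (!σ) τ)
    have h5 := lj τ
    have h6 := lk σ
    linarith
  refine ⟨hX, hX', lk, ?_, lj, ?_, pr, ?_, sb⟩
  · intro σ
    have := hlk σ
    linarith
  · intro σ
    have := hlj σ
    linarith
  · intro σ τ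
    have h1 := sb σ τ
    have h2 := pr (!σ) (!τ)
    have h3 := hw (xor σ τ)
    linarith

end pair

end Pool.Agent.TF.H99
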