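import Pool.Agent.TF.Stmts

/-! Squad TF (MP_589914_co), helper99: Shannon calculus and the abstract label lemma (no cubes). -/

set_option autoImplicit false

namespace Pool.Agent.TF.H99

section

variable {Ω : Type} [Fintype Ω]

theorem mo (L : Lib) (P : Law Ω) {A B : Type} {a : Ω → A} {b : Ω → B} (h : P.Det a b) :
    P.H b ≤ P.H a := L.mon.1 _ _ _ P a b h

/-- submodularity in the flexible form -/
theorem sm (L : Lib) (P : Law Ω) {A B U V : Type} {a : Ω → A} {b : Ω → B} {u : Ω → U} {v : Ω → V}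
    (hu : P.Det (fun ω => (a ω, b ω)) u) (ha : P.Det a v) (hb : P.Det b v) :
    P.H u + P.H v ≤ P.H a + P.H b := by
  have h := L.sub Ω A B V P a b v
  unfold Law.C at h
  have h1 : P.H u ≤ P.H (fun ω => (a ω, (b ω, v ω))) := by
    apply mo L
    intro ω ω' h0 h0' he
    apply hu ω ω' h0 h0'
    simp only [Prod.mk.injEq] at he ⊢
    exact ⟨he.1, he.2.1⟩
  have h2 : P.H (fun ω => (b ω, v ω)) ≤ P.H b := by
    apply mo L
    intro ω ω' h0 h0' he
    simp only [Prod.mk.injEq]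
    exact ⟨he, hb ω ω' h0 h0' he⟩
  have h3 : P.H (fun ω => (a ω, v ω)) ≤ P.H a := by
    apply mo L
    intro ω ω' h0 h0' he
    simp only [Prod.mk.injEq]
    exact ⟨he, ha ω ω' h0 h0' he⟩
  linarith

/-- conditional mutual information -/
noncomputable def mi (P : Law Ω) {A B Z : Type} (a : Ω → A) (b : Ω → B) (z : Ω → Z) : ℝ :=
  P.H (fun ω => (a ω, z ω)) + P.H (fun ω => (b ω, z ω)) - P.H (fun ω => ((a ω, b ω), z ω)) - P.H z

/-- removing a conditioning variable -/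
theorem mi_rem (L : Lib) (P : Law Ω) {A B V Z : Type} (a : Ω → A) (b : Ω → B) (v : Ω → V) (z : Ω → Z) :
    mi P a b (fun ω => (v ω, z ω)) ≤ mi P a b z + (P.H (fun ω => (v ω, (a ω, z ω))) - P.H (fun ω => (a ω, z ω)))
      - (P.H (fun ω => (v ω, ((a ω, b ω), z ω))) - P.H (fun ω => ((a ω, b ω), z ω))) := by
  unfold mi
  have h1 : P.H (fun ω => (b ω, (v ω, z ω))) + P.H z
      ≤ P.H (fun ω => (b ω, z ω)) + P.H (fun ω => (v ω, z ω)) := by
    apply sm L
    · intro ω ω' _ _ he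
      simp only [Prod.mk.injEq] at he ⊢
      tauto
    · intro ω ω' _ _ he
      simp only [Prod.mk.injEq] at he
      tauto
    · intro ω ω' _ _ he
      simp only [Prod.mk.injEq] at he
      tauto
  have h2 : P.H (fun ω => (a ω, (v ω, z ω))) ≤ P.H (fun ω => (v ω, (a ω, z ω))) := by
    apply mo L
    intro ω ω' _ _ he
    simp only [Prod.mk.injEq] at he ⊢
    tauto
  have h3 : P.H (fun ω => (v ω, ((a ω, b ω), z ω))) ≤ P.H (fun ω => ((a ω, b ω), (v ω, z ω))) := by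
    apply mo L
    intro ω ω' _ _ he
    simp only [Prod.mk.injEq] at he ⊢
    tauto
  linarith

/-- adding a conditioning variable -/
theorem mi_add (L : Lib) (P : Law Ω) {A B V Z : Type} (a : Ω → A) (b : Ω → B) (v : Ω → V) (z : Ω → Z) :
    mi P a b z ≤ mi P a b (fun ω => (v ω, z ω)) + mi P a v z := by
  unfold mi
  have h1 : P.H (fun ω => ((a ω, b ω), (v ω, z ω))) + P.H (fun ω => (b ω, z ω))
      ≤ P.H (fun ω => (b ω, (v ω, z ω))) + P.H (fun ω => ((a ω, b ω), z ω)) := by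
    apply sm L
    · intro ω ω' _ _ he
      simp only [Prod.mk.injEq] at he ⊢
      tauto
    · intro ω ω' _ _ he
      simp only [Prod.mk.injEq] at he ⊢
      tauto
    · intro ω ω' _ _ he
      simp only [Prod.mk.injEq] at he ⊢
      tauto
  have h2 : P.H (fun ω => ((a ω, v ω), z ω)) ≤ P.H (fun ω => (a ω, (v ω, z ω))) := by
    apply mo L
    intro ω ω' _ _ he
    simp only [Prod.mk.injEq] at he ⊢
    tauto
  linarith

/-- `I(a;v|z) ≤ (H(v|w) - H(v|o))` when `z` determines `w` and `o` determines `a,z`. -/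
theorem mi_le (L : Lib) (P : Law Ω) {A V Z W O : Type} (a : Ω → A) (v : Ω → V) (z : Ω → Z) (w : Ω → W)
    (o : Ω → O) (hz : P.Det z w) (ho : P.Det o (fun ω => (a ω, z ω))) :
    mi P a v z ≤ (P.H (fun ω => (v ω, w ω)) - P.H w) - (P.H (fun ω => (v ω, o ω)) - P.H o) := by
  unfold mi
  have h1 : P.H (fun ω => (v ω, z ω)) + P.H w ≤ P.H (fun ω => (v ω, w ω)) + P.H z := by
    apply sm L
    · intro ω ω' _ _ he
      simp only [Prod.mk.injEq] at he ⊢
      tauto
    · intro ω ω' _ _ he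
      simp only [Prod.mk.injEq] at he ⊢
      tauto
    · exact hz
  have h2 : P.H (fun ω => (v ω, o ω)) + P.H (fun ω => (a ω, z ω))
      ≤ P.H (fun ω => ((a ω, v ω), z ω)) + P.H o := by
    apply sm L
    · intro ω ω' _ _ he
      simp only [Prod.mk.injEq] at he ⊢
      tauto
    · intro ω ω' _ _ he
      simp only [Prod.mk.injEq] at he ⊢
      tauto
    · exact ho
  linarith

/-- The abstract label lemma. `ρ` hangs on `a`, `σ` hangs on `b`, both hang on `f`, and `f` is almost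
determined by `ρ, σ`. -/
theorem label (L : Lib) (P : Law Ω) {A B F T K O R S : Type} (a : Ω → A) (b : Ω → B) (f : Ω → F)
    (t : Ω → T) (κ : Ω → K) (o : Ω → O) (ρ : Ω → R) (σ : Ω → S) (r s e1 e2 e3 : ℝ)
    (ho : P.Det o (fun ω => ((a ω, b ω), (f ω, t ω)))) (ht : P.Det t κ)
    (h1 : P.H o + r ≤ P.H (fun ω => (ρ ω, o ω)))
    (h2 : P.H (fun ω => (ρ ω, o ω)) + s ≤ P.H (fun ω => (σ ω, (ρ ω, o ω))))
    (ea : P.H (fun ω => (ρ ω, (a ω, κ ω))) ≤ P.H (fun ω => (a ω, κ ω)) + r + e1)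
    (ef : P.H (fun ω => (ρ ω, (f ω, κ ω))) ≤ P.H (fun ω => (f ω, κ ω)) + r + e2)
    (sb : P.H (fun ω => (σ ω, (b ω, κ ω))) ≤ P.H (fun ω => (b ω, κ ω)) + s + e1)
    (sf : P.H (fun ω => (σ ω, (f ω, κ ω))) ≤ P.H (fun ω => (f ω, κ ω)) + s + e2)
    (h3 : P.H (fun ω => (f ω, (ρ ω, σ ω, κ ω))) ≤ P.H (fun ω => (ρ ω, σ ω, κ ω)) + e3) :
    mi P a b (fun ω => (f ω, t ω)) ≤ mi P a b t + 2 * e2 + e3 + 2 * e1 := by
  have hoo : ∀ ω ω', P.p ω ≠ 0 → P.p ω' ≠ 0 → o ω = o ω' →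
      a ω = a ω' ∧ b ω = b ω' ∧ f ω = f ω' ∧ t ω = t ω' ∧ κ ω = κ ω' := by
    intro ω ω' h0 h0' he
    have h := ho ω ω' h0 h0' he
    simp only [Prod.mk.injEq] at h
    exact ⟨h.1.1, h.1.2, h.2.1, h.2.2, ht ω ω' h0 h0' h.2.2⟩
  -- (i) add ρ, σ to the conditioning
  have i1 := mi_add L P b a ρ (fun ω => (f ω, t ω))
  have i2 := mi_add L P a b σ (fun ω => (ρ ω, (f ω, t ω)))
  have i3 : mi P b ρ (fun ω => (f ω, t ω)) ≤ e2 := by
    have h := mi_le L P b ρ (fun ω => (f ω, t ω)) (fun ω => (f ω, κ ω)) o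
      (by
        intro ω ω' h0 h0' he
        simp only [Prod.mk.injEq] at he ⊢
        exact ⟨he.1, ht ω ω' h0 h0' he.2⟩)
      (by
        intro ω ω' h0 h0' he
        obtain ⟨_, hb, hf, ht', _⟩ := hoo ω ω' h0 h0' he
        simp only [Prod.mk.injEq]
        exact ⟨hb, hf, ht'⟩)
    linarith
  have i4 : mi P a σ (fun ω => (ρ ω, (f ω, t ω))) ≤ e2 := by
    have h := mi_le L P a σ (fun ω => (ρ ω, (f ω, t ω))) (fun ω => (f ω, κ ω)) (fun ω => (ρ ω, o ω))
      (by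
        intro ω ω' h0 h0' he
        simp only [Prod.mk.injEq] at he ⊢
        exact ⟨he.2.1, ht ω ω' h0 h0' he.2.2⟩)
      (by
        intro ω ω' h0 h0' he
        simp only [Prod.mk.injEq] at he
        obtain ⟨ha, _, hf, ht', _⟩ := hoo ω ω' h0 h0' he.2
        simp only [Prod.mk.injEq]
        exact ⟨ha, he.1, hf, ht'⟩)
    linarith
  -- (ii) remove f
  have j1 := mi_rem L P a b f (fun ω => (σ ω, (ρ ω, t ω)))
  have j2 : P.H (fun ω => (f ω, (a ω, (σ ω, (ρ ω, t ω))))) - P.H (fun ω => (a ω, (σ ω, (ρ ω, t ω)))) ≤ e3 := by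
    have h : P.H (fun ω => (f ω, (a ω, (σ ω, (ρ ω, t ω))))) + P.H (fun ω => (ρ ω, σ ω, κ ω))
        ≤ P.H (fun ω => (f ω, (ρ ω, σ ω, κ ω))) + P.H (fun ω => (a ω, (σ ω, (ρ ω, t ω)))) := by
      apply sm L
      · intro ω ω' _ _ he
        simp only [Prod.mk.injEq] at he ⊢
        tauto
      · intro ω ω' _ _ he
        simp only [Prod.mk.injEq] at he ⊢
        tauto
      · intro ω ω' h0 h0' he
        simp only [Prod.mk.injEq] at he ⊢
        exact ⟨he.2.2.1, he.2.1, ht ω ω' h0 h0' he.2.2.2⟩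
    linarith
  have j3 : P.H (fun ω => ((a ω, b ω), (σ ω, (ρ ω, t ω))))
      ≤ P.H (fun ω => (f ω, ((a ω, b ω), (σ ω, (ρ ω, t ω))))) := by
    apply mo L
    intro ω ω' _ _ he
    simp only [Prod.mk.injEq] at he ⊢
    tauto
  -- (iii) remove σ, ρ
  have k1 := mi_rem L P b a σ (fun ω => (ρ ω, t ω))
  have k2 : P.H (fun ω => (σ ω, (b ω, (ρ ω, t ω)))) + P.H (fun ω => (b ω, κ ω))
      ≤ P.H (fun ω => (σ ω, (b ω, κ ω))) + P.H (fun ω => (b ω, (ρ ω, t ω))) := by
    apply sm L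
    · intro ω ω' _ _ he
      simp only [Prod.mk.injEq] at he ⊢
      tauto
    · intro ω ω' _ _ he
      simp only [Prod.mk.injEq] at he ⊢
      tauto
    · intro ω ω' h0 h0' he
      simp only [Prod.mk.injEq] at he ⊢
      exact ⟨he.1, ht ω ω' h0 h0' he.2.2⟩
  have k3 : P.H (fun ω => (σ ω, (ρ ω, o ω))) + P.H (fun ω => ((b ω, a ω), (ρ ω, t ω)))
      ≤ P.H (fun ω => (σ ω, ((b ω, a ω), (ρ ω, t ω)))) + P.H (fun ω => (ρ ω, o ω)) := by
    apply sm L
    · intro ω ω' _ _ he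
      simp only [Prod.mk.injEq] at he ⊢
      tauto
    · intro ω ω' _ _ he
      simp only [Prod.mk.injEq] at he ⊢
      tauto
    · intro ω ω' h0 h0' he
      simp only [Prod.mk.injEq] at he
      obtain ⟨ha, hb, hf, ht', _⟩ := hoo ω ω' h0 h0' he.2
      simp only [Prod.mk.injEq]
      exact ⟨⟨hb, ha⟩, he.1, ht'⟩
  have l1 := mi_rem L P a b ρ t
  have l2 : P.H (fun ω => (ρ ω, (a ω, t ω))) + P.H (fun ω => (a ω, κ ω))
      ≤ P.H (fun ω => (ρ ω, (a ω, κ ω))) + P.H (fun ω => (a ω, t ω)) := by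
    apply sm L
    · intro ω ω' _ _ he
      simp only [Prod.mk.injEq] at he ⊢
      tauto
    · intro ω ω' _ _ he
      simp only [Prod.mk.injEq] at he ⊢
      tauto
    · intro ω ω' h0 h0' he
      simp only [Prod.mk.injEq] at he ⊢
      exact ⟨he.1, ht ω ω' h0 h0' he.2⟩
  have l3 : P.H (fun ω => (ρ ω, o ω)) + P.H (fun ω => ((a ω, b ω), t ω))
      ≤ P.H (fun ω => (ρ ω, ((a ω, b ω), t ω))) + P.H o := by
    apply sm L
    · intro ω ω' _ _ he
      simp only [Prod.mk.injEq] at he ⊢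
      tauto
    · intro ω ω' _ _ he
      simp only [Prod.mk.injEq] at he ⊢
      tauto
    · intro ω ω' h0 h0' he
      obtain ⟨ha, hb, hf, ht', _⟩ := hoo ω ω' h0 h0' he
      simp only [Prod.mk.injEq]
      exact ⟨⟨ha, hb⟩, ht'⟩
  -- symmetry and reordering of conditionings
  have mi_comm : ∀ {Z : Type} (z : Ω → Z), mi P b a z = mi P a b z := by
    intro Z z
    unfold mi
    have h : P.H (fun ω => ((b ω, a ω), z ω)) = P.H (fun ω => ((a ω, b ω), z ω)) := by
      apply le_antisymm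
      · apply mo L
        intro ω ω' _ _ he
        simp only [Prod.mk.injEq] at he ⊢
        tauto
      · apply mo L
        intro ω ω' _ _ he
        simp only [Prod.mk.injEq] at he ⊢
        tauto
    rw [h]
    ring
  have mi_cong : mi P a b (fun ω => (σ ω, (ρ ω, (f ω, t ω)))) = mi P a b (fun ω => (f ω, (σ ω, (ρ ω, t ω)))) := by
    unfold mi
    have e1 : ∀ {Y : Type} (y : Ω → Y), P.H (fun ω => (y ω, (σ ω, (ρ ω, (f ω, t ω)))))
        = P.H (fun ω => (y ω, (f ω, (σ ω, (ρ ω, t ω))))) := by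
      intro Y y
      apply le_antisymm
      · apply mo L
        intro ω ω' _ _ he
        simp only [Prod.mk.injEq] at he ⊢
        tauto
      · apply mo L
        intro ω ω' _ _ he
        simp only [Prod.mk.injEq] at he ⊢
        tauto
    have e2 : P.H (fun ω => (σ ω, (ρ ω, (f ω, t ω)))) = P.H (fun ω => (f ω, (σ ω, (ρ ω, t ω)))) := by
      apply le_antisymm
      · apply mo L
        intro ω ω' _ _ he
        simp only [Prod.mk.injEq] at he ⊢
        tauto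
      · apply mo L
        intro ω ω' _ _ he
        simp only [Prod.mk.injEq] at he ⊢
        tauto
    rw [e1 a, e1 b, e1 (fun ω => (a ω, b ω)), e2]
  rw [mi_comm, mi_comm] at i1
  rw [mi_comm, mi_comm] at k1
  rw [mi_cong] at i2
  linarith

/-- `f` is almost determined by its two labels. -/
theorem fill (L : Lib) (P : Law Ω) {A B F K O R S : Type} (a : Ω → A) (b : Ω → B) (f : Ω → F)
    (κ : Ω → K) (o : Ω → O) (ρ : Ω → R) (σ : Ω → S) (r s e1 : ℝ)
    (ho : P.Det o (fun ω => ((a ω, b ω), κ ω)))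
    (h1 : P.H o + r ≤ P.H (fun ω => (ρ ω, o ω)))
    (h2 : P.H (fun ω => (ρ ω, o ω)) + s ≤ P.H (fun ω => (σ ω, (ρ ω, o ω))))
    (ea : P.H (fun ω => (ρ ω, (a ω, κ ω))) ≤ P.H (fun ω => (a ω, κ ω)) + r + e1)
    (sb : P.H (fun ω => (σ ω, (b ω, κ ω))) ≤ P.H (fun ω => (b ω, κ ω)) + s + e1) :
    P.H (fun ω => (f ω, (ρ ω, σ ω, κ ω))) ≤ P.H (fun ω => (ρ ω, σ ω, κ ω)) +
      (P.H (fun ω => (ρ ω, (f ω, κ ω))) + P.H (fun ω => (σ ω, (f ω, κ ω))) - P.H (fun ω => (f ω, κ ω))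
        - P.H (fun ω => (ρ ω, κ ω)) - P.H (fun ω => (σ ω, κ ω)) + P.H κ + mi P a b κ + 2 * e1) := by
  unfold mi
  have h3 : P.H (fun ω => (f ω, (ρ ω, σ ω, κ ω))) + P.H (fun ω => (f ω, κ ω))
      ≤ P.H (fun ω => (ρ ω, (f ω, κ ω))) + P.H (fun ω => (σ ω, (f ω, κ ω))) := by
    apply sm L
    · intro ω ω' _ _ he
      simp only [Prod.mk.injEq] at he ⊢
      tauto
    · intro ω ω' _ _ he
      simp only [Prod.mk.injEq] at he ⊢
      tauto
    · intro ω ω' _ _ he
      simp only [Prod.mk.injEq] at he ⊢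
      tauto
  have h4 : P.H (fun ω => (ρ ω, σ ω, b ω, κ ω)) + P.H (fun ω => (σ ω, κ ω))
      ≤ P.H (fun ω => (ρ ω, σ ω, κ ω)) + P.H (fun ω => (σ ω, (b ω, κ ω))) := by
    apply sm L
    · intro ω ω' _ _ he
      simp only [Prod.mk.injEq] at he ⊢
      tauto
    · intro ω ω' _ _ he
      simp only [Prod.mk.injEq] at he ⊢
      tauto
    · intro ω ω' _ _ he
      simp only [Prod.mk.injEq] at he ⊢
      tauto
  have h5 : P.H (fun ω => (σ ω, (ρ ω, o ω))) + P.H (fun ω => (ρ ω, b ω, κ ω))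
      ≤ P.H (fun ω => (ρ ω, σ ω, b ω, κ ω)) + P.H (fun ω => (ρ ω, o ω)) := by
    apply sm L
    · intro ω ω' _ _ he
      simp only [Prod.mk.injEq] at he ⊢
      tauto
    · intro ω ω' _ _ he
      simp only [Prod.mk.injEq] at he ⊢
      tauto
    · intro ω ω' h0 h0' he
      simp only [Prod.mk.injEq] at he
      have h := ho ω ω' h0 h0' he.2
      simp only [Prod.mk.injEq] at h ⊢
      tauto
  have h6 : P.H (fun ω => (ρ ω, ((a ω, b ω), κ ω))) + P.H (fun ω => (ρ ω, κ ω))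
      ≤ P.H (fun ω => (ρ ω, b ω, κ ω)) + P.H (fun ω => (ρ ω, (a ω, κ ω))) := by
    apply sm L
    · intro ω ω' _ _ he
      simp only [Prod.mk.injEq] at he ⊢
      tauto
    · intro ω ω' _ _ he
      simp only [Prod.mk.injEq] at he ⊢
      tauto
    · intro ω ω' _ _ he
      simp only [Prod.mk.injEq] at he ⊢
      tauto
  have h7 : P.H (fun ω => (ρ ω, o ω)) + P.H (fun ω => ((a ω, b ω), κ ω))
      ≤ P.H (fun ω => (ρ ω, ((a ω, b ω), κ ω))) + P.H o := by
    apply sm L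
    · intro ω ω' _ _ he
      simp only [Prod.mk.injEq] at he ⊢
      tauto
    · intro ω ω' _ _ he
      simp only [Prod.mk.injEq] at he ⊢
      tauto
    · exact ho
  linarith

end

end Pool.Agent.TF.H99
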