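import Pool.Agent.Helper99_TF.Pair

/-! Squad TF (MP_589914_co), helper99: the CI-step (multi-compatibility without cubes). -/

set_option autoImplicit false

namespace Pool.Agent.TF.H99

/-- `π2` is a copy of `π1` given `W`; only the label `f ∘ π2` is used. -/
structure Lbl {Ω' Ω : Type} [Fintype Ω'] [Fintype Ω] (Q : Law Ω') (P : Law Ω) (π1 π2 : Ω' → Ω) {S V : Type}
    (W : Ω → S) (f : Ω → V) : Prop where
  s1 : ∀ (A : Type) (g : Ω → A), Q.H (fun ω => g (π1 ω)) = P.H g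
  s2 : ∀ (A : Type) (g : Ω → A), Q.H (fun ω => g (π2 ω)) = P.H g
  supp : ∀ ω, Q.p ω ≠ 0 → P.p (π1 ω) ≠ 0 ∧ P.p (π2 ω) ≠ 0 ∧ W (π1 ω) = W (π2 ω)
  ind : ∀ (A : Type) (F : Ω → A), P.Det F W → Q.H (fun ω => (f (π2 ω), F (π1 ω))) = P.H F + P.C f W

section

variable {Ω' Ω : Type} [Fintype Ω'] [Fintype Ω] {Q : Law Ω'} {P : Law Ω} {π1 π2 : Ω' → Ω} {S V : Type}
    {W : Ω → S} {f : Ω → V}

theorem lbl_p (L : Lib) (h : Lbl Q P π1 π2 W f) {M : Type} (m : Ω → M) (hm : P.Det W m) :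
    Q.H (fun ω => (f (π2 ω), m (π1 ω))) = P.H (fun ω => (f ω, m ω)) := by
  rw [← h.s2 _ (fun ω => (f ω, m ω))]
  have key : ∀ ω, Q.p ω ≠ 0 → m (π1 ω) = m (π2 ω) := by
    intro ω h0
    obtain ⟨h1, h2, h3⟩ := h.supp ω h0
    exact hm _ _ h1 h2 h3
  apply mono_cong L
  · intro ω ω' h0 h0' he
    simp only [Prod.mk.injEq] at he ⊢
    rw [← key ω h0, ← key ω' h0']
    exact he
  · intro ω ω' h0 h0' he
    simp only [Prod.mk.injEq] at he ⊢
    rw [key ω h0, key ω' h0']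
    exact he

theorem lbl_f (L : Lib) (h : Lbl Q P π1 π2 W f) {A A' B K : Type} (p : Ω → A) (p' : Ω → A') (w : Ω → B) (κ : Ω → K)
    (h1 : P.Det W (fun ω => (p ω, κ ω))) (h2 : P.Det W (fun ω => (w ω, κ ω)))
    (h3 : P.Det (fun ω => ((p ω, w ω), κ ω)) W)
    (h4 : P.Det (fun ω => ((p' ω, f ω), κ ω)) w) :
    Q.H (fun ω => (f (π2 ω), (f (π1 ω), κ (π1 ω)))) ≤
      2 * P.H (fun ω => (f ω, (p ω, κ ω))) - P.H (fun ω => (p ω, κ ω)) + 2 * P.H (fun ω => ((p' ω, f ω), κ ω))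
      - P.H (fun ω => (w ω, κ ω)) - 2 * P.H (fun ω => (f ω, W ω)) + P.H W := by
  have A1 : Q.H (fun ω => (f (π2 ω), ((f (π1 ω), p (π1 ω)), κ (π1 ω)))) + Q.H (fun ω => (p (π1 ω), κ (π1 ω)))
      ≤ Q.H (fun ω => (f (π2 ω), (p (π1 ω), κ (π1 ω)))) + Q.H (fun ω => (f (π1 ω), (p (π1 ω), κ (π1 ω)))) := by
    apply sm L
    · intro ω ω' _ _ he
      simp only [Prod.mk.injEq] at he ⊢
      tauto
    · intro ω ω' _ _ he
      simp only [Prod.mk.injEq] at he ⊢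
      tauto
    · intro ω ω' _ _ he
      simp only [Prod.mk.injEq] at he ⊢
      tauto
  have A2 : Q.H (fun ω => (f (π2 ω), (f (π1 ω), W (π1 ω)))) + Q.H (fun ω => (f (π2 ω), (f (π1 ω), κ (π1 ω))))
      ≤ Q.H (fun ω => (f (π2 ω), ((f (π1 ω), p (π1 ω)), κ (π1 ω)))) +
        Q.H (fun ω => (f (π2 ω), (f (π1 ω), (w (π1 ω), κ (π1 ω))))) := by
    apply sm L
    · intro ω ω' h0 h0' he
      have hW := h3 (π1 ω) (π1 ω') (h.supp ω h0).1 (h.supp ω' h0').1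
      simp only [Prod.mk.injEq] at he hW ⊢
      tauto
    · intro ω ω' _ _ he
      simp only [Prod.mk.injEq] at he ⊢
      tauto
    · intro ω ω' _ _ he
      simp only [Prod.mk.injEq] at he ⊢
      tauto
  have A3 : Q.H (fun ω => (f (π2 ω), (f (π1 ω), (w (π1 ω), κ (π1 ω))))) + Q.H (fun ω => (w (π1 ω), κ (π1 ω)))
      ≤ Q.H (fun ω => (f (π2 ω), (w (π1 ω), κ (π1 ω)))) + Q.H (fun ω => (f (π1 ω), (w (π1 ω), κ (π1 ω)))) := by
    apply sm L
    · intro ω ω' _ _ he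
      simp only [Prod.mk.injEq] at he ⊢
      tauto
    · intro ω ω' _ _ he
      simp only [Prod.mk.injEq] at he ⊢
      tauto
    · intro ω ω' _ _ he
      simp only [Prod.mk.injEq] at he ⊢
      tauto
  have A4 := h.ind _ (fun ω => (f ω, W ω)) (by
    intro ω ω' _ _ he
    simp only [Prod.mk.injEq] at he
    exact he.2)
  have A5 := lbl_p L h (fun ω => (p ω, κ ω)) h1
  have A5' := lbl_p L h (fun ω => (w ω, κ ω)) h2
  have A6 : P.H (fun ω => (f ω, (w ω, κ ω))) ≤ P.H (fun ω => ((p' ω, f ω), κ ω)) := by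
    apply mo L
    intro ω ω' h0 h0' he
    have hw := h4 ω ω' h0 h0' he
    simp only [Prod.mk.injEq] at he ⊢
    exact ⟨he.1.2, hw, he.2⟩
  have B1 := h.s1 _ (fun ω => (p ω, κ ω))
  have B2 := h.s1 _ (fun ω => (f ω, (p ω, κ ω)))
  have B3 := h.s1 _ (fun ω => (w ω, κ ω))
  have B4 := h.s1 _ (fun ω => (f ω, (w ω, κ ω)))
  unfold Law.C at A4
  linarith

end

theorem ci_step (L : Lib) (hA : Al1Stmt) {G : Type} [AddCommGroup G] [Fintype G] [DecidableEq G] {n : ℕ}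
    (F : Fam G n) (l e c : ℝ) (hB : Base F l e) {Ω : Type} [Fintype Ω] (P : Law Ω) (x : Ω → G) (k j : Ω → Fin n)
    (hc0 : 0 ≤ c) (hs : ∀ ω, P.p ω ≠ 0 → x ω ∈ F.D (k ω) ∧ x ω ∈ F.D (j ω))
    (hc : 2 * l - c ≤ P.H (fun ω => (x ω, (k ω, j ω)))) (τ : Bool) {T : Type} (t : Ω → T)
    (ht : P.Det t (fun ω => (k ω, j ω))) :
    mi P (fun ω => F.a (k ω) (x ω)) (fun ω => F.b (k ω) (x ω)) (fun ω => (F.lab τ (j ω) (x ω), t ω))
      ≤ mi P (fun ω => F.a (k ω) (x ω)) (fun ω => F.b (k ω) (x ω)) t + 124 * (c + 2 * e) := by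
  have np := npair L hA F l e c hB P x k j hc0 hs hc
  have he := hB.e0
  have hd : 0 ≤ c + 2 * e := by linarith
  -- abbreviations
  set d := c + 2 * e with hddef
  obtain ⟨κ, hκ⟩ : ∃ κ : Ω → Fin n × Fin n, κ = fun ω => (k ω, j ω) := ⟨_, rfl⟩
  obtain ⟨W, hW⟩ : ∃ W : Bool → Ω → (G × G) × (Fin n × Fin n),
    W = fun σ ω => ((F.lab σ (k ω) (x ω), F.lab (!τ) (j ω) (x ω)), (k ω, j ω)) := ⟨_, rfl⟩
  obtain ⟨f, hf⟩ : ∃ f : Ω → G, f = fun ω => F.lab τ (j ω) (x ω) := ⟨_, rfl⟩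
  -- `(f, W σ)` is equivalent to `(x, κ)`
  have hfW : ∀ σ, P.H (fun ω => (f ω, W σ ω)) = P.H (fun ω => (x ω, (k ω, j ω))) := by
    intro σ
    rw [hf, hW]
    apply mono_cong L
    · intro ω ω' h0 h0' he
      simp only [Prod.mk.injEq] at he ⊢
      obtain ⟨e1, ⟨_, e2⟩, e3, e4⟩ := he
      refine ⟨?_, e3, e4⟩
      have hx1 := (hs ω h0).2
      have hx2 := (hs ω' h0').2
      rw [e4] at e1 e2 hx1
      exact lab_det F τ (j ω') _ _ hx1 hx2 e1 e2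
    · intro ω ω' h0 h0' he
      simp only [Prod.mk.injEq] at he ⊢
      obtain ⟨e1, e2, e3⟩ := he
      rw [e1, e2, e3]
      exact ⟨rfl, ⟨rfl, rfl⟩, rfl, rfl⟩
  -- first label
  obtain ⟨Q1, q11, q12, q13, q14, _, q16, _⟩ := gl L P P (W true) (W true) (fun s => rfl)
  have hsame : SameLaw Q1 (fun ω => W false ω.1) P (W false) :=
    L.sam.1 _ _ _ _ Q1 P _ _ (W false) q16
  obtain ⟨Q, q21, q22, q23, q24, _, _, _⟩ := gl L Q1 P (fun ω => W false ω.1) (W false) hsame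
  have lr : Lbl Q P (fun ω : (Ω × Ω) × Ω => ω.1.1) (fun ω => ω.1.2) (W true) f := by
    refine ⟨?_, ?_, ?_, ?_⟩
    · intro A g
      rw [q21 A (fun ω => g ω.1), q11 A g]
    · intro A g
      rw [q21 A (fun ω => g ω.2), q12 A g]
    · intro ω h0
      exact q13 ω.1 (q23 ω h0).1
    · intro A F' hF
      rw [q21 _ (fun ω => (f ω.2, F' ω.1)), q14 _ _ F' f hF]
  have ls : Lbl Q P (fun ω : (Ω × Ω) × Ω => ω.1.1) (fun ω => ω.2) (W false) f := by
    refine ⟨?_, ?_, ?_, ?_⟩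
    · intro A g
      rw [q21 A (fun ω => g ω.1), q11 A g]
    · intro A g
      exact q22 A g
    · intro ω h0
      obtain ⟨h1, h2, h3⟩ := q23 ω h0
      exact ⟨(q13 ω.1 h1).1, h2, h3⟩
    · intro A F' hF
      have h := q24 _ _ (fun ω : Ω × Ω => F' ω.1) f (by
        intro ω ω' h0 h0' he
        exact hF ω.1 ω'.1 (q13 ω h0).1 (q13 ω' h0').1 he)
      rw [h, q11 A F']
  -- determinations for `lbl_f`, for both `σ`
  have det1 : ∀ σ, P.Det (W σ) (fun ω => (F.lab σ (k ω) (x ω), κ ω)) := by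
    intro σ
    rw [hW, hκ]
    intro ω ω' _ _ he
    simp only [Prod.mk.injEq] at he ⊢
    tauto
  have det2 : ∀ σ, P.Det (W σ) (fun ω => (F.w (xor σ (!τ)) (k ω) (j ω) (x ω), κ ω)) := by
    intro σ
    rw [hW, hκ]
    intro ω ω' h0 h0' he
    simp only [Prod.mk.injEq] at he ⊢
    refine ⟨?_, he.2⟩
    have hx := hs ω h0
    have hx' := hs ω' h0'
    obtain ⟨⟨ea, el⟩, ek, ej⟩ := he
    rw [ek] at ea hx ⊢
    rw [ej] at el hx ⊢
    exact w_det hA F σ (!τ) (k ω') (j ω') (x ω) (x ω') hx hx' ea el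
  have det3 : ∀ σ, P.Det (fun ω => ((F.lab σ (k ω) (x ω), F.w (xor σ (!τ)) (k ω) (j ω) (x ω)), κ ω)) (W σ) := by
    intro σ
    rw [hW, hκ]
    intro ω ω' h0 h0' he
    simp only [Prod.mk.injEq] at he ⊢
    refine ⟨⟨he.1.1, ?_⟩, he.2⟩
    have hx := hs ω h0
    have hx' := hs ω' h0'
    obtain ⟨⟨ea, el⟩, ek, ej⟩ := he
    rw [ek] at ea el hx
    rw [ej] at el hx ⊢
    exact w_inv hA F σ (!τ) (k ω') (j ω') (x ω) (x ω') hx hx' ea el
  have det4 : ∀ σ, P.Det (fun ω => ((F.lab (!σ) (k ω) (x ω), f ω), κ ω)) (fun ω => F.w (xor σ (!τ)) (k ω) (j ω) (x ω)) := by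
    intro σ
    rw [hf, hκ]
    intro ω ω' h0 h0' he
    simp only [Prod.mk.injEq] at he ⊢
    have hx := hs ω h0
    have hx' := hs ω' h0'
    obtain ⟨⟨ea, el⟩, ek, ej⟩ := he
    rw [ek] at ea hx ⊢
    rw [ej] at el hx ⊢
    have h := w_det hA F (!σ) τ (k ω') (j ω') (x ω) (x ω') hx hx' ea el
    have hb : xor (!σ) τ = xor σ (!τ) := by cases σ <;> cases τ <;> rfl
    rwa [hb] at h
  have fr := lbl_f L lr (fun ω => F.lab true (k ω) (x ω)) (fun ω => F.lab (!true) (k ω) (x ω))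
    (fun ω => F.w (xor true (!τ)) (k ω) (j ω) (x ω)) κ (det1 true) (det2 true) (det3 true) (det4 true)
  have fs := lbl_f L ls (fun ω => F.lab false (k ω) (x ω)) (fun ω => F.lab (!false) (k ω) (x ω))
    (fun ω => F.w (xor false (!τ)) (k ω) (j ω) (x ω)) κ (det1 false) (det2 false) (det3 false) (det4 false)
  have pr := lbl_p L lr (fun ω => (F.lab true (k ω) (x ω), κ ω)) (det1 true)
  have ps := lbl_p L ls (fun ω => (F.lab false (k ω) (x ω), κ ω)) (det1 false)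
  have detκ : ∀ σ, P.Det (W σ) κ := by
    intro σ
    rw [hW, hκ]
    intro ω ω' _ _ he
    simp only [Prod.mk.injEq] at he ⊢
    tauto
  have pr0 := lbl_p L lr κ (detκ true)
  have ps0 := lbl_p L ls κ (detκ false)
  -- conversion of the profile
  have c1 : ∀ σ, P.H (fun ω => (f ω, (F.lab σ (k ω) (x ω), κ ω)))
      = P.H (fun ω => ((F.lab σ (k ω) (x ω), F.lab τ (j ω) (x ω)), (k ω, j ω))) := by
    intro σ
    rw [hf, hκ]
    apply mono_cong L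
    · intro ω ω' _ _ he
      simp only [Prod.mk.injEq] at he ⊢
      tauto
    · intro ω ω' _ _ he
      simp only [Prod.mk.injEq] at he ⊢
      tauto
  have c2 : ∀ σ, P.H (fun ω => ((F.lab (!σ) (k ω) (x ω), f ω), κ ω))
      = P.H (fun ω => ((F.lab (!σ) (k ω) (x ω), F.lab τ (j ω) (x ω)), (k ω, j ω))) := by
    intro σ
    rw [hf, hκ]
  have c3 : P.H (fun ω => (f ω, κ ω)) = P.H (fun ω => (F.lab τ (j ω) (x ω), (k ω, j ω))) := by
    rw [hf, hκ]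
  have hWH : ∀ σ, P.H (W σ) = P.H (fun ω => ((F.lab σ (k ω) (x ω), F.lab (!τ) (j ω) (x ω)), (k ω, j ω))) := by
    intro σ
    rw [hW]
  have hκH : P.H κ = P.H (fun ω => (k ω, j ω)) := by rw [hκ]
  -- numbers
  obtain ⟨hx, hx', lk, lk', lj, lj', pp, pp', sb⟩ := np
  have hr : ∀ σ, P.C f (W σ) = P.H (fun ω => (x ω, (k ω, j ω))) - P.H (W σ) := by
    intro σ
    unfold Law.C
    rw [hfW σ]
  have hmiκ : mi P (fun ω => F.a (k ω) (x ω)) (fun ω => F.b (k ω) (x ω)) κ ≤ 2 * d := by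
    unfold mi
    have h1 : P.H (fun ω => (x ω, (k ω, j ω))) ≤ P.H (fun ω => ((F.a (k ω) (x ω), F.b (k ω) (x ω)), κ ω)) := by
      apply mo L
      rw [hκ]
      intro ω ω' h0 h0' he
      simp only [Prod.mk.injEq] at he ⊢
      obtain ⟨⟨ea, el⟩, ek, ej⟩ := he
      refine ⟨?_, ek, ej⟩
      have hx1 := (hs ω h0).1
      have hx2 := (hs ω' h0').1
      rw [ek] at ea el hx1
      exact lab_det F true (k ω') _ _ hx1 hx2 (by rw [lab_true, lab_true]; exact ea)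
        (by rw [Bool.not_true, lab_false, lab_false]; exact el)
    have h2 := lk' true
    have h3 := lk' false
    simp only [lab_true, lab_false] at h2 h3
    rw [hκ] at h1 ⊢
    simp only at h1 ⊢
    linarith
  -- the two abstract lemmas on `Q`
  have sa := ls.s1
  have ho : Q.Det (fun ω : (Ω × Ω) × Ω => ω.1.1) (fun ω => ((F.a (k ω.1.1) (x ω.1.1), F.b (k ω.1.1) (x ω.1.1)), (f ω.1.1, t ω.1.1))) := by
    intro ω ω' _ _ he
    simp only at he ⊢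
    rw [he]
  have ho' : Q.Det (fun ω : (Ω × Ω) × Ω => ω.1.1) (fun ω => ((F.a (k ω.1.1) (x ω.1.1), F.b (k ω.1.1) (x ω.1.1)), κ ω.1.1)) := by
    intro ω ω' _ _ he
    simp only at he ⊢
    rw [he]
  have htQ : Q.Det (fun ω : (Ω × Ω) × Ω => t ω.1.1) (fun ω => κ ω.1.1) := by
    intro ω ω' h0 h0' he
    rw [hκ]
    exact ht _ _ (lr.supp ω h0).1 (lr.supp ω' h0').1 he
  have hid : ∀ σ, P.Det (fun ω => ω) (W σ) := by
    intro σ ω ω' _ _ he
    simp only at he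
    rw [he]
  have H0 : Q.H (fun ω : (Ω × Ω) × Ω => ω.1.1) = P.H (fun ω => ω) := sa _ (fun ω => ω)
  have H1 : Q.H (fun ω : (Ω × Ω) × Ω => (f ω.1.2, ω.1.1)) = P.H (fun ω => ω) + P.C f (W true) :=
    lr.ind _ (fun ω => ω) (hid true)
  have H2 : Q.H (fun ω : (Ω × Ω) × Ω => (f ω.2, (f ω.1.2, ω.1.1)))
      = Q.H (fun ω : (Ω × Ω) × Ω => (f ω.1.2, ω.1.1)) + P.C f (W false) := by
    have h := q24 _ _ (fun ω : Ω × Ω => (f ω.2, ω.1)) f (by
      intro ω ω' _ _ he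
      simp only [Prod.mk.injEq] at he ⊢
      rw [he.2])
    rw [h, q21 _ (fun ω : Ω × Ω => (f ω.2, ω.1))]
  have EA : Q.H (fun ω : (Ω × Ω) × Ω => (f ω.1.2, (F.a (k ω.1.1) (x ω.1.1), κ ω.1.1)))
      ≤ Q.H (fun ω : (Ω × Ω) × Ω => (F.a (k ω.1.1) (x ω.1.1), κ ω.1.1)) + P.C f (W true) + 21 / 2 * d := by
    have h1 := sa _ (fun ω => (F.a (k ω) (x ω), κ ω))
    simp only [lab_true] at pr
    rw [pr, h1, hr true, hWH true]
    have h2 := c1 true
    simp only [lab_true] at h2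
    rw [h2]
    have h3 := pp' true τ
    have h4 := pp' true (!τ)
    have h5 := lk true
    simp only [lab_true] at h3 h4 h5
    simp only [lab_true]
    rw [hκ]
    simp only
    linarith
  have SB : Q.H (fun ω : (Ω × Ω) × Ω => (f ω.2, (F.b (k ω.1.1) (x ω.1.1), κ ω.1.1)))
      ≤ Q.H (fun ω : (Ω × Ω) × Ω => (F.b (k ω.1.1) (x ω.1.1), κ ω.1.1)) + P.C f (W false) + 21 / 2 * d := by
    have h1 := sa _ (fun ω => (F.b (k ω) (x ω), κ ω))
    simp only [lab_false] at ps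
    rw [ps, h1, hr false, hWH false]
    have h2 := c1 false
    simp only [lab_false] at h2
    rw [h2]
    have h3 := pp' false τ
    have h4 := pp' false (!τ)
    have h5 := lk false
    simp only [lab_false] at h3 h4 h5
    simp only [lab_false]
    rw [hκ]
    simp only
    linarith
  -- upper bounds for `(label, f)`
  have FR : Q.H (fun ω : (Ω × Ω) × Ω => (f ω.1.2, (f ω.1.1, κ ω.1.1))) ≤ P.H κ + (3 * l / 4 + 31 / 2 * d) := by
    have h1 := c1 true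
    have h2 := c2 true
    have h3 := pp' true τ
    have h4 := pp' (!true) τ
    have h5 := lk true
    have h6 := sb true (!τ)
    rw [Bool.not_not] at h6
    have h7 := hfW true
    have h8 := hWH true
    rw [hκH]
    rw [h1, h2, h7, h8] at fr
    rw [hκ] at fr ⊢
    simp only at fr ⊢
    linarith
  have FS : Q.H (fun ω : (Ω × Ω) × Ω => (f ω.2, (f ω.1.1, κ ω.1.1))) ≤ P.H κ + (3 * l / 4 + 31 / 2 * d) := by
    have h1 := c1 false
    have h2 := c2 false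
    have h3 := pp' false τ
    have h4 := pp' (!false) τ
    have h5 := lk false
    have h6 := sb false (!τ)
    rw [Bool.not_not] at h6
    have h7 := hfW false
    have h8 := hWH false
    rw [hκH]
    rw [h1, h2, h7, h8] at fs
    rw [hκ] at fs ⊢
    simp only at fs ⊢
    linarith
  have hfκ : Q.H (fun ω : (Ω × Ω) × Ω => (f ω.1.1, κ ω.1.1)) = P.H (fun ω => (f ω, κ ω)) :=
    sa _ (fun ω => (f ω, κ ω))
  have hfκ' : l / 2 - 3 / 2 * d ≤ P.H (fun ω => (f ω, κ ω)) - P.H κ := by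
    rw [c3, hκH]
    exact lj τ
  have EF : Q.H (fun ω : (Ω × Ω) × Ω => (f ω.1.2, (f ω.1.1, κ ω.1.1)))
      ≤ Q.H (fun ω : (Ω × Ω) × Ω => (f ω.1.1, κ ω.1.1)) + P.C f (W true) + 22 * d := by
    have h1 := hr true
    have h2 := hWH true
    have h3 := pp' true (!τ)
    rw [hfκ, h1, h2]
    rw [hκH] at FR hfκ'
    linarith
  have SF : Q.H (fun ω : (Ω × Ω) × Ω => (f ω.2, (f ω.1.1, κ ω.1.1)))
      ≤ Q.H (fun ω : (Ω × Ω) × Ω => (f ω.1.1, κ ω.1.1)) + P.C f (W false) + 22 * d := by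
    have h1 := hr false
    have h2 := hWH false
    have h3 := pp' false (!τ)
    rw [hfκ, h1, h2]
    rw [hκH] at FS hfκ'
    linarith
  have FI := fill L Q (fun ω : (Ω × Ω) × Ω => F.a (k ω.1.1) (x ω.1.1)) (fun ω => F.b (k ω.1.1) (x ω.1.1))
    (fun ω => f ω.1.1) (fun ω => κ ω.1.1) (fun ω => ω.1.1) (fun ω => f ω.1.2) (fun ω => f ω.2)
    (P.C f (W true)) (P.C f (W false)) (21 / 2 * d) ho' (by rw [H0, H1]) (by rw [H2]) EA SB
  have miQ : ∀ {Z : Type} (z : Ω → Z), mi Q (fun ω : (Ω × Ω) × Ω => F.a (k ω.1.1) (x ω.1.1))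
      (fun ω => F.b (k ω.1.1) (x ω.1.1)) (fun ω => z ω.1.1)
      = mi P (fun ω => F.a (k ω) (x ω)) (fun ω => F.b (k ω) (x ω)) z := by
    intro Z z
    unfold mi
    rw [sa _ (fun ω => (F.a (k ω) (x ω), z ω)), sa _ (fun ω => (F.b (k ω) (x ω), z ω)),
      sa _ (fun ω => ((F.a (k ω) (x ω), F.b (k ω) (x ω)), z ω)), sa _ z]
  have E3 : Q.H (fun ω : (Ω × Ω) × Ω => (f ω.1.1, (f ω.1.2, f ω.2, κ ω.1.1)))
      ≤ Q.H (fun ω : (Ω × Ω) × Ω => (f ω.1.2, f ω.2, κ ω.1.1)) + 117 / 2 * d := by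
    have h1 := miQ κ
    rw [h1] at FI
    rw [pr0, ps0, hfκ] at FI
    have h2 : Q.H (fun ω : (Ω × Ω) × Ω => κ ω.1.1) = P.H κ := sa _ κ
    rw [h2] at FI
    linarith
  have LA := label L Q (fun ω : (Ω × Ω) × Ω => F.a (k ω.1.1) (x ω.1.1)) (fun ω => F.b (k ω.1.1) (x ω.1.1))
    (fun ω => f ω.1.1) (fun ω => t ω.1.1) (fun ω => κ ω.1.1) (fun ω => ω.1.1) (fun ω => f ω.1.2) (fun ω => f ω.2)
    (P.C f (W true)) (P.C f (W false)) (21 / 2 * d) (22 * d) (117 / 2 * d) ho htQ (by rw [H0, H1]) (by rw [H2])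
    EA EF SB SF E3
  rw [miQ (fun ω => (f ω, t ω)), miQ t] at LA
  rw [hf] at LA
  linarith

end Pool.Agent.TF.H99
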